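import Pool.Agent.P8H9.AV.Fin

/-! The family of polynomials with prescribed values at the zeros of a polynomial `A`. -/

set_option autoImplicit false

namespace Pool.Agent.P8H9.PV

open Polynomial Finset Pool.Agent.H341R2.Sharp Pool.Agent.P8H9.AV

universe u

section lam

variable {F : Type u} [Field F] [Fintype F] [DecidableEq F]

theorem lam_mul_left (hF : ringChar F ≠ 2) {P : F[X]} (hP : P.Monic) (hi : Irreducible P)
    (g h : F[X]) : lam (g * h) P = lam g P * lam h P := by
  obtain ⟨E, _, _, _, φ, -, -, h1, h2⟩ := lam_irr hF hP hi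
  rw [h2, h2, h2, map_mul, map_mul]

theorem lam_eq_zero (hF : ringChar F ≠ 2) {P : F[X]} (hP : P.Monic) (hi : Irreducible P)
    {g : F[X]} (hg : P ∣ g) : lam g P = 0 := by
  obtain ⟨E, _, _, _, φ, -, -, h1, h2⟩ := lam_irr hF hP hi
  rw [h2, (h1 g).2 hg]
  simp

theorem lam_mul_sq (hF : ringChar F ≠ 2) {P : F[X]} (hP : P.Monic) (hi : Irreducible P)
    (g : F[X]) {A : F[X]} (hA : ¬ P ∣ A) : lam (g * A ^ 2) P = lam g P := by
  obtain ⟨E, _, _, _, φ, -, -, h1, h2⟩ := lam_irr hF hP hi
  rw [h2, h2, map_mul, map_mul, map_pow, map_pow]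
  have h3 : φ A ≠ 0 := fun h => hA ((h1 A).1 h)
  have h4 : quadraticChar E (φ A) ^ 2 = 1 := quadraticChar_sq_one h3
  rw [h4, mul_one]

theorem lam_linear (hF : ringChar F ≠ 2) (g : F[X]) (a : F) :
    lam g (X - C a) = quadraticChar F (g.eval a) := by
  have h1 := qc_aeval (E := F) hF g a
  rw [minpoly.eq_X_sub_C', Module.finrank_self, natDegree_X_sub_C, Nat.div_one, pow_one,
    coe_aeval_eq_eval] at h1
  exact h1.symm

end lam

section fam

variable {F : Type u} [Field F]

/-- the member `f + A (c_{k-1} x^{k-1} + … + c_0)` of the family -/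
noncomputable def famA (f A : F[X]) {k : ℕ} (c : Fin k → F) : F[X] :=
  f + A * ∑ j : Fin k, C (c j) * X ^ (j : ℕ)

theorem famA_monic {f A : F[X]} (hf : f.Monic) (hA : A.Monic) {k : ℕ}
    (hk : A.natDegree + k ≤ f.natDegree) (c : Fin k → F) :
    (famA f A c).Monic ∧ (famA f A c).natDegree = f.natDegree := by
  have h1 : (A * ∑ j : Fin k, C (c j) * X ^ (j : ℕ) : F[X]).degree < f.degree := by
    rcases eq_or_ne (∑ j : Fin k, C (c j) * X ^ (j : ℕ) : F[X]) 0 with h0 | h0
    · rw [h0, mul_zero, degree_zero, degree_eq_natDegree hf.ne_zero]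
      exact WithBot.bot_lt_coe _
    · have h2 : (∑ j : Fin k, C (c j) * X ^ (j : ℕ) : F[X]).natDegree < k := by
        rw [natDegree_lt_iff_degree_lt h0]
        exact degree_sum_fin_lt c
      have h3 : (A * ∑ j : Fin k, C (c j) * X ^ (j : ℕ) : F[X]).natDegree < f.natDegree := by
        refine lt_of_le_of_lt natDegree_mul_le ?_
        omega
      exact degree_lt_degree h3
  exact ⟨hf.add_of_left h1, natDegree_add_eq_left_of_degree_lt h1⟩

theorem famA_eval {f A : F[X]} {k : ℕ} (c : Fin k → F) {a : F} (ha : A.eval a = 0) :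
    (famA f A c).eval a = f.eval a := by
  unfold famA
  rw [eval_add, eval_mul, ha, zero_mul, add_zero]

end fam

section van

variable {F : Type u} [Field F] [Fintype F] [DecidableEq F]

/-- vanishing -/
theorem sum_prod_lamA (hF : ringChar F ≠ 2) (f A : F[X]) {k : ℕ} (S : Finset F[X])
    (hS : ∀ P ∈ S, P.Monic ∧ Irreducible P) (hne : S.Nonempty)
    (hdeg : ∑ P ∈ S, P.natDegree ≤ k) :
    ∑ c : Fin k → F, ∏ P ∈ S, lam (famA f A c * A ^ 2) P = 0 := by
  classical
  by_cases hA : ∃ P ∈ S, P ∣ A
  · obtain ⟨P, hP, hd⟩ := hA
    refine sum_eq_zero fun c _ => prod_eq_zero hP ?_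
    exact lam_eq_zero hF (hS P hP).1 (hS P hP).2
      ((hd.trans (dvd_pow_self A two_ne_zero)).mul_left _)
  · push Not at hA
    have hcop : IsCoprime A (∏ P ∈ S, P) := by
      refine IsCoprime.prod_right fun P hP => ?_
      exact ((hS P hP).2.coprime_iff_not_dvd.2 (hA P hP)).symm
    obtain ⟨u, v, huv⟩ := hcop
    have h1 : ∀ c : Fin k → F, ∏ P ∈ S, lam (famA f A c * A ^ 2) P =
        (∏ P ∈ S, lam A P) * ∏ P ∈ S, lam (fam (f * u) c) P := by
      intro c
      rw [← prod_mul_distrib]
      refine prod_congr rfl fun P hP => ?_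
      obtain ⟨h2, h3⟩ := hS P hP
      rw [lam_mul_sq hF h2 h3 _ (hA P hP), ← lam_mul_left hF h2 h3]
      refine lam_congr hF h2 h3 ?_
      have h4 : famA f A c - A * fam (f * u) c = (f * v) * ∏ P ∈ S, P := by
        unfold famA fam
        linear_combination (-f) * huv
      rw [h4]
      exact (dvd_prod_of_mem (fun P => P) hP).mul_left _
    simp_rw [h1]
    rw [← mul_sum, sum_prod_lam hF (f * u) S hS hne hdeg, mul_zero]

/-- the averages of the coefficients vanish -/
theorem sum_BcA (hF : ringChar F ≠ 2) (f A : F[X]) {k n : ℕ} (hn : 1 ≤ n) (hnk : n ≤ k) :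
    ∑ c : Fin k → F, Bc (famA f A c * A ^ 2) n = 0 := by
  classical
  simp_rw [Bc_eq]
  rw [sum_comm]
  apply sum_eq_zero
  intro S hS
  rw [mem_powerset] at hS
  split_ifs with h
  · rw [← mul_sum]
    have hne : S.Nonempty := by
      rw [nonempty_iff_ne_empty]
      rintro rfl
      rw [sum_empty] at h
      omega
    rw [sum_prod_lamA hF f A S (fun P hP => ⟨(mem_Irr.1 (hS hP)).1, (mem_Irr.1 (hS hP)).2.1⟩) hne
      (by omega), mul_zero]
  · simp

/-- the trace sums of `g A²` -/
theorem T_mul_sq (hF : ringChar F ≠ 2) (g : F[X]) {n : ℕ} (α : Fin n → F)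
    (hα : Function.Injective α) {m : ℕ} (hm : 1 ≤ m) :
    T (g * (∏ i, (X - C (α i))) ^ 2) m = T g m - ∑ i, quadraticChar F (g.eval (α i)) ^ m := by
  classical
  set A : F[X] := ∏ i, (X - C (α i)) with hA
  unfold T
  set J := (Irr F m).filter (fun P => P.natDegree ∣ m) with hJ
  have h1 : ∀ P ∈ J, ((P.natDegree : ℤ) * lam (g * A ^ 2) P ^ (m / P.natDegree) : ℤ) =
      (P.natDegree : ℤ) * lam g P ^ (m / P.natDegree) -
      ∑ i, if P = X - C (α i) then quadraticChar F (g.eval (α i)) ^ m else 0 := by
    intro P hP
    rw [hJ, mem_filter, mem_Irr] at hP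
    obtain ⟨⟨hm1, hi, hd1⟩, hd⟩ := hP
    by_cases hPA : P ∣ A
    · obtain ⟨i, -, h2⟩ := (hi.prime.dvd_finsetProd_iff _).1 hPA
      have h3 : P = X - C (α i) := eq_of_monic_of_associated hm1 (monic_X_sub_C _)
        (hi.associated_of_dvd (irreducible_X_sub_C _) h2)
      have h4 : P.natDegree = 1 := by rw [h3, natDegree_X_sub_C]
      rw [lam_eq_zero hF hm1 hi ((hPA.trans (dvd_pow_self A two_ne_zero)).mul_left _), h4,
        Nat.div_one, zero_pow (by omega), mul_zero]
      rw [sum_eq_single i]
      · rw [if_pos h3, h3, lam_linear hF]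
        simp
      · intro j _ hj
        rw [if_neg]
        intro h5
        rw [h3] at h5
        exact hj (hα (C_injective (sub_right_injective h5))).symm
      · intro h5
        exact absurd (mem_univ _) h5
    · rw [lam_mul_sq hF hm1 hi g hPA, sum_eq_zero, sub_zero]
      intro i _
      rw [if_neg]
      rintro rfl
      exact hPA (dvd_prod_of_mem _ (mem_univ i))
  rw [sum_congr rfl h1, sum_sub_distrib, sum_comm]
  congr 1
  refine sum_congr rfl fun i _ => ?_
  rw [sum_ite_eq' J (X - C (α i)), if_pos]
  rw [hJ, mem_filter, mem_Irr]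
  refine ⟨⟨monic_X_sub_C _, irreducible_X_sub_C _, ?_⟩, ?_⟩
  · rw [natDegree_X_sub_C]
    exact hm
  · rw [natDegree_X_sub_C]
    exact one_dvd _

end van

section bad

variable {F : Type u} [Field F]

open Classical in
/-- few members of a pencil are not separable -/
theorem line_badA [Fintype F] {g A : F[X]} (hW : g * derivative A - derivative g * A ≠ 0)
    (hcop : IsCoprime g A) :
    (univ.filter fun a : F => ¬ (g + A * C a).Separable).card ≤
      (g * derivative A - derivative g * A).natDegree := by
  set W := g * derivative A - derivative g * A with hWd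
  set Ω := AlgebraicClosure F with hΩ
  have h1 : ((univ.filter fun a : F => ¬ (g + A * C a).Separable).image
      fun a => -algebraMap F Ω a) ⊆
      (W.aroots Ω).toFinset.image fun x => aeval x g / aeval x A := by
    intro b hb
    rw [mem_image] at hb
    obtain ⟨a, ha, rfl⟩ := hb
    rw [mem_filter] at ha
    have h2 := ha.2
    rw [Polynomial.Separable, isCoprime_iff_aeval_ne_zero_of_isAlgClosed F Ω] at h2
    push Not at h2
    obtain ⟨x, h3, h4⟩ := h2
    rw [map_add, map_mul, aeval_C] at h3
    rw [derivative_add, derivative_mul, derivative_C, mul_zero, add_zero, map_add, map_mul,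
      aeval_C] at h4
    have hAx : aeval x A ≠ 0 := by
      intro h5
      rw [h5, zero_mul, add_zero] at h3
      obtain ⟨u, v, huv⟩ := hcop
      have h6 := congrArg (aeval x) huv
      rw [map_add, map_mul, map_mul, h3, h5, mul_zero, mul_zero, add_zero, map_one] at h6
      exact zero_ne_one h6
    rw [mem_image]
    refine ⟨x, ?_, ?_⟩
    · rw [Multiset.mem_toFinset, mem_aroots]
      refine ⟨hW, ?_⟩
      rw [hWd, map_sub, map_mul, map_mul]
      linear_combination (aeval x (derivative A)) * h3 - (aeval x A) * h4
    · rw [div_eq_iff hAx]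
      linear_combination h3
  have h2 := card_le_card h1
  have hinj : Function.Injective fun a => -algebraMap F Ω a :=
    fun a b h => (algebraMap F Ω).injective (neg_injective h)
  rw [card_image_of_injective _ hinj] at h2
  refine h2.trans (card_image_le.trans ((Multiset.toFinset_card_le _).trans ?_))
  exact (card_roots' _).trans natDegree_map_le

open Classical in
theorem famA_bad [Fintype F] {f A : F[X]} (hf : f.Monic) (hA : A.Monic) {k : ℕ} (hk1 : 1 ≤ k)
    (hk : A.natDegree + k ≤ f.natDegree) (hcop : IsCoprime f A) :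
    (univ.filter fun c : Fin k → F => ¬ (famA f A c).Separable).card * Fintype.card F ≤
      (if ((f.natDegree - A.natDegree : ℕ) : F) = 0 then Fintype.card F else 2 * f.natDegree) *
        Fintype.card F ^ k := by
  split_ifs with h0
  · rw [mul_comm]
    refine Nat.mul_le_mul_left _ ?_
    refine (card_le_univ _).trans ?_
    rw [Fintype.card_fun, Fintype.card_fin]
  · obtain ⟨j, rfl⟩ : ∃ j, k = j + 1 := ⟨k - 1, by omega⟩
    have h1 : (univ.filter fun c : Fin (j + 1) → F => ¬ (famA f A c).Separable).card =
        ∑ c' : Fin j → F,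
          (univ.filter fun a : F => ¬ (famA f A (Fin.cons 0 c') + A * C a).Separable).card := by
      rw [card_filter, ← (Fin.consEquiv fun _ => F).sum_comp, Fintype.sum_prod_type, sum_comm]
      refine sum_congr rfl fun c' _ => ?_
      rw [card_filter]
      refine sum_congr rfl fun a _ => ?_
      have : famA f A ((Fin.consEquiv fun _ => F) (a, c')) =
          famA f A (Fin.cons 0 c') + A * C a := by
        unfold famA
        rw [Fin.sum_univ_succ, Fin.sum_univ_succ]
        simp only [Fin.consEquiv_apply, Fin.cons_zero, Fin.cons_succ, Fin.val_zero, pow_zero,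
          mul_one, map_zero, zero_add]
        ring
      rw [this]
    rw [h1]
    have h2 : ∀ c' : Fin j → F,
        (univ.filter fun a : F => ¬ (famA f A (Fin.cons 0 c') + A * C a).Separable).card ≤
          2 * f.natDegree := by
      intro c'
      set g := famA f A (Fin.cons 0 c' : Fin (j + 1) → F) with hg
      obtain ⟨hm, hd⟩ := famA_monic hf hA hk (Fin.cons 0 c')
      rw [← hg] at hm hd
      have hcop' : IsCoprime g A := by
        rw [hg]
        unfold famA
        exact IsCoprime.add_mul_left_left hcop _
      have hne : g * derivative A - derivative g * A ≠ 0 := by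
        intro h
        have h3 := congrArg (fun w => w.coeff (g.natDegree + A.natDegree - 1)) h
        simp only [coeff_zero] at h3
        have h4 : (g * derivative A).coeff (g.natDegree + A.natDegree - 1) =
            (A.natDegree : F) := by
          rcases Nat.eq_zero_or_pos A.natDegree with h5 | h5
          · have h6 : derivative A = 0 := by
              rw [eq_one_of_monic_natDegree_zero hA h5, derivative_one]
            rw [h6, mul_zero, coeff_zero, h5]
            simp
          · have h6 : g.natDegree + A.natDegree - 1 = g.natDegree + (A.natDegree - 1) := by omega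
            rw [h6, coeff_mul_add_eq_of_natDegree_le le_rfl ((natDegree_derivative_le _))]
            rw [coeff_derivative, hm.coeff_natDegree, one_mul]
            have h7 : A.natDegree - 1 + 1 = A.natDegree := by omega
            rw [h7, hA.coeff_natDegree, one_mul]
            have : ((A.natDegree - 1 : ℕ) : F) + 1 = ((A.natDegree - 1 + 1 : ℕ) : F) := by
              push_cast; ring
            rw [this, h7]
        have h4' : (derivative g * A).coeff (g.natDegree + A.natDegree - 1) =
            (g.natDegree : F) := by
          have h5 : 0 < g.natDegree := by omega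
          have h6 : g.natDegree + A.natDegree - 1 = (g.natDegree - 1) + A.natDegree := by omega
          rw [h6, coeff_mul_add_eq_of_natDegree_le (natDegree_derivative_le _) le_rfl]
          rw [coeff_derivative, hA.coeff_natDegree, mul_one]
          have h7 : g.natDegree - 1 + 1 = g.natDegree := by omega
          rw [h7, hm.coeff_natDegree, one_mul]
          have : ((g.natDegree - 1 : ℕ) : F) + 1 = ((g.natDegree - 1 + 1 : ℕ) : F) := by
            push_cast; ring
          rw [this, h7]
        rw [coeff_sub, h4, h4', hd] at h3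
        apply h0
        rw [Nat.cast_sub (by omega)]
        linear_combination -h3
      refine (line_badA hne hcop').trans ?_
      refine (natDegree_sub_le _ _).trans ?_
      refine max_le ?_ ?_
      · refine natDegree_mul_le.trans ?_
        have := natDegree_derivative_le A
        omega
      · refine natDegree_mul_le.trans ?_
        have := natDegree_derivative_le g
        omega
    calc (∑ c' : Fin j → F,
          (univ.filter fun a : F => ¬ (famA f A (Fin.cons 0 c') + A * C a).Separable).card) *
            Fintype.card F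
        ≤ (∑ _c' : Fin j → F, 2 * f.natDegree) * Fintype.card F :=
          Nat.mul_le_mul_right _ (sum_le_sum fun c' _ => h2 c')
      _ = 2 * f.natDegree * Fintype.card F ^ (j + 1) := by
        rw [sum_const, card_univ, Fintype.card_fun, Fintype.card_fin, smul_eq_mul, pow_succ]
        ring

end bad

end Pool.Agent.P8H9.PV
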