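import Pool.Agent.P8H9.PV.Fam

/-! The local factor and its average over the family with prescribed values. -/

set_option autoImplicit false

namespace Pool.Agent.P8H9.PV

open Polynomial Finset Pool.Agent.H341R2.Sharp Pool.Agent.P8H9.AV

section rf

variable {n : ℕ}

/-- the local factor of the prescribed points -/
noncomputable def Rf (ε : Fin n → ℂ) (x : ℂ) : ℂ := ∏ i, (1 - ε i * x)⁻¹

/-- the constant in the bound of the local factor of the prescribed points -/
noncomputable def Cr (n : ℕ) (y₀ : ℝ) : ℝ := n / (1 - y₀) * Real.exp (n / (1 - y₀))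

theorem Cr_nonneg (n : ℕ) {y₀ : ℝ} (h1 : y₀ < 1) : 0 ≤ Cr n y₀ := by
  have : 0 < 1 - y₀ := by linarith
  unfold Cr
  positivity

theorem one_sub_ne {e x : ℂ} (he : ‖e‖ ≤ 1) {y₀ : ℝ} (hx : ‖x‖ ≤ y₀) (h1 : y₀ < 1) :
    1 - y₀ ≤ ‖1 - e * x‖ := by
  have h2 : ‖e * x‖ ≤ y₀ := by
    rw [norm_mul]
    calc ‖e‖ * ‖x‖ ≤ 1 * y₀ := mul_le_mul he hx (norm_nonneg _) zero_le_one
      _ = y₀ := one_mul _
  have h3 := norm_sub_norm_le (1 : ℂ) (e * x)
  rw [norm_one] at h3
  linarith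

theorem Rf_sub_one (ε : Fin n → ℂ) (hε : ∀ i, ‖ε i‖ ≤ 1) {x : ℂ} {y₀ : ℝ} (hx : ‖x‖ ≤ y₀)
    (h1 : y₀ < 1) : ‖Rf ε x - 1‖ ≤ Cr n y₀ * ‖x‖ := by
  have h0 : 0 < 1 - y₀ := by linarith
  have h2 : ∀ i, (1 - ε i * x)⁻¹ = 1 + ε i * x / (1 - ε i * x) := by
    intro i
    have h3 : (1 - ε i * x) ≠ 0 := by
      have := one_sub_ne (hε i) hx h1
      intro h
      rw [h, norm_zero] at this
      linarith
    field_simp
    ring
  have h4 : ∀ i, ‖ε i * x / (1 - ε i * x)‖ ≤ ‖x‖ / (1 - y₀) := by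
    intro i
    rw [norm_div, norm_mul]
    have h5 : ‖ε i‖ * ‖x‖ ≤ ‖x‖ := by
      calc ‖ε i‖ * ‖x‖ ≤ 1 * ‖x‖ := mul_le_mul_of_nonneg_right (hε i) (norm_nonneg _)
        _ = ‖x‖ := one_mul _
    exact div_le_div₀ (norm_nonneg _) h5 h0 (one_sub_ne (hε i) hx h1)
  unfold Rf
  simp_rw [h2]
  have h5 := (univ : Finset (Fin n)).norm_prod_one_add_sub_one_le fun i =>
    ε i * x / (1 - ε i * x)
  refine h5.trans ?_
  set t : ℝ := ∑ i, ‖ε i * x / (1 - ε i * x)‖ with ht
  have ht1 : t ≤ n / (1 - y₀) * ‖x‖ := by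
    calc t ≤ ∑ _i : Fin n, ‖x‖ / (1 - y₀) := sum_le_sum fun i _ => h4 i
      _ = n / (1 - y₀) * ‖x‖ := by
        rw [sum_const, card_univ, Fintype.card_fin, nsmul_eq_mul]
        ring
  have ht0 : 0 ≤ t := sum_nonneg fun _ _ => norm_nonneg _
  have ht2 : t ≤ n / (1 - y₀) := by
    refine ht1.trans ?_
    calc (n : ℝ) / (1 - y₀) * ‖x‖ ≤ n / (1 - y₀) * 1 := by
          gcongr
          linarith
      _ = _ := mul_one _
  have h6 : Real.exp t - 1 ≤ t * Real.exp t := by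
    have h7 := Real.add_one_le_exp (-t)
    have h8 := mul_le_mul_of_nonneg_right h7 (Real.exp_pos t).le
    rw [← Real.exp_add, neg_add_cancel, Real.exp_zero] at h8
    nlinarith
  refine h6.trans ?_
  calc t * Real.exp t ≤ (n / (1 - y₀) * ‖x‖) * Real.exp (n / (1 - y₀)) :=
        mul_le_mul ht1 (Real.exp_le_exp.2 ht2) (Real.exp_pos _).le (by positivity)
    _ = Cr n y₀ * ‖x‖ := by
      unfold Cr
      ring

end rf

section loc

universe u

variable {F : Type u} [Field F] [Fintype F] [DecidableEq F]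

theorem one_le_sq : 1 ≤ sq F := by
  unfold AV.sq
  rw [Real.one_le_sqrt]
  exact_mod_cast Fintype.card_pos (α := F)

/-- the character values at the prescribed points -/
noncomputable def eps (g : F[X]) {n : ℕ} (α : Fin n → F) (i : Fin n) : ℂ :=
  ((quadraticChar F (g.eval (α i)) : ℤ) : ℂ)

theorem eps_norm (g : F[X]) {n : ℕ} (α : Fin n → F) (i : Fin n) : ‖eps g α i‖ ≤ 1 := by
  unfold eps
  rw [Complex.norm_intCast]
  rcases quadraticChar_isQuadratic F (g.eval (α i)) with h | h | h <;> rw [h] <;> simp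

theorem hasSum_log {z : ℂ} (hz : ‖z‖ < 1) :
    HasSum (fun m : ℕ => z ^ (m + 1) / (m + 1 : ℂ)) (-Complex.log (1 - z)) := by
  have h := Complex.hasSum_taylorSeries_neg_log hz
  rw [← hasSum_nat_add_iff' 1] at h
  simp only [range_one, sum_singleton, pow_zero, Nat.cast_zero, div_zero, sub_zero] at h
  refine h.congr_fun fun m => ?_
  push_cast
  rfl

variable {n : ℕ}

theorem monic_prod (α : Fin n → F) : (∏ i, (X - C (α i))).Monic :=
  monic_prod_of_monic _ _ fun i _ => monic_X_sub_C _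

theorem natDegree_prod' (α : Fin n → F) : (∏ i, (X - C (α i))).natDegree = n := by
  rw [natDegree_prod_of_monic _ _ fun i _ => monic_X_sub_C _]
  simp

theorem gA_facts {g : F[X]} (hg : g.Monic) (hodd : Odd g.natDegree) (α : Fin n → F) :
    (g * (∏ i, (X - C (α i))) ^ 2).Monic ∧
      (g * (∏ i, (X - C (α i))) ^ 2).natDegree = g.natDegree + 2 * n ∧
      Odd (g * (∏ i, (X - C (α i))) ^ 2).natDegree := by
  have h1 := (monic_prod α).pow 2
  have h2 : (g * (∏ i, (X - C (α i))) ^ 2).natDegree = g.natDegree + 2 * n := by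
    rw [hg.natDegree_mul h1, natDegree_pow, natDegree_prod']
  refine ⟨hg.mul h1, h2, ?_⟩
  rw [h2]
  exact hodd.add_even (even_two_mul n)

/-- the local factor -/
theorem local_split (hF : ringChar F ≠ 2) {g : F[X]} (hg : g.Monic) (hodd : Odd g.natDegree)
    (α : Fin n → F) (hα : Function.Injective α) {x : ℂ} (hx : sq F * ‖x‖ < 1) :
    (∑' m : ℕ, (Bc g m : ℂ) * x ^ m) * Rf (eps g α) x =
      ∑' m : ℕ, (Bc (g * (∏ i, (X - C (α i))) ^ 2) m : ℂ) * x ^ m := by
  set g' := g * (∏ i, (X - C (α i))) ^ 2 with hg'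
  obtain ⟨h1, h2, h3⟩ := gA_facts hg hodd α
  rw [← hg'] at h1 h2 h3
  have hs := sq_pos (F := F)
  have hs1 := one_le_sq (F := F)
  have hx1 : ‖x‖ < 1 := lt_of_le_of_lt (by nlinarith [norm_nonneg x]) hx
  have hz : ∀ i, ‖eps g α i * x‖ < 1 := by
    intro i
    rw [norm_mul]
    have := eps_norm g α i
    calc ‖eps g α i‖ * ‖x‖ ≤ 1 * ‖x‖ := mul_le_mul_of_nonneg_right this (norm_nonneg _)
      _ < 1 := by rwa [one_mul]
  rw [← exp_local hF hg hodd hx, ← exp_local hF h1 h3 hx]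
  have h4 : ∀ m : ℕ, (T g (m + 1) : ℂ) / (m + 1 : ℂ) * x ^ (m + 1) =
      (T g' (m + 1) : ℂ) / (m + 1 : ℂ) * x ^ (m + 1) +
      ∑ i, (eps g α i * x) ^ (m + 1) / (m + 1 : ℂ) := by
    intro m
    have h5 := T_mul_sq hF g α hα (m := m + 1) (by omega)
    rw [← hg'] at h5
    rw [h5]
    unfold eps
    push_cast
    simp_rw [mul_pow, mul_div_right_comm]
    rw [← sum_mul, ← sum_div]
    ring
  have hsT : Summable fun m : ℕ => (T g' (m + 1) : ℂ) / (m + 1 : ℂ) * x ^ (m + 1) := by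
    have h5 : Summable fun m : ℕ => ((5 * g'.natDegree : ℕ) : ℝ) * (sq F * ‖x‖) ^ (m + 1) := by
      refine Summable.mul_left _ ((summable_nat_add_iff 1).2 ?_)
      exact summable_geometric_of_lt_one (by positivity) hx
    refine Summable.of_norm_bounded h5 fun m => ?_
    rw [norm_mul, norm_div, norm_pow, Complex.norm_intCast]
    have h6 := T_bd hF h1 h3 (m + 1) (by omega)
    have h7 : (1 : ℝ) ≤ ‖(m + 1 : ℂ)‖ := by
      have : (m + 1 : ℂ) = ((m + 1 : ℕ) : ℂ) := by push_cast; rfl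
      rw [this, Complex.norm_natCast]
      exact_mod_cast (by omega : 1 ≤ m + 1)
    calc |(T g' (m + 1) : ℝ)| / ‖(m + 1 : ℂ)‖ * ‖x‖ ^ (m + 1)
        ≤ |(T g' (m + 1) : ℝ)| * ‖x‖ ^ (m + 1) := by
          gcongr
          exact div_le_self (abs_nonneg _) h7
      _ ≤ ((5 * g'.natDegree : ℕ) * sq F ^ (m + 1)) * ‖x‖ ^ (m + 1) := by gcongr
      _ = _ := by rw [mul_pow]; ring
  have hsL : ∀ i, HasSum (fun m : ℕ => (eps g α i * x) ^ (m + 1) / (m + 1 : ℂ))
      (-Complex.log (1 - eps g α i * x)) := fun i => hasSum_log (hz i)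
  have h6 : ∑' m : ℕ, (T g (m + 1) : ℂ) / (m + 1 : ℂ) * x ^ (m + 1) =
      (∑' m : ℕ, (T g' (m + 1) : ℂ) / (m + 1 : ℂ) * x ^ (m + 1)) +
      ∑ i, -Complex.log (1 - eps g α i * x) := by
    simp_rw [h4]
    exact (hsT.hasSum.add (hasSum_sum fun i _ => hsL i)).tsum_eq
  rw [h6, neg_add, Complex.exp_add, mul_assoc]
  have h7 : Complex.exp (-∑ i, -Complex.log (1 - eps g α i * x)) * Rf (eps g α) x = 1 := by
    rw [sum_neg_distrib, neg_neg, Complex.exp_sum, Rf, ← prod_mul_distrib]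
    refine prod_eq_one fun i _ => ?_
    have h8 : (1 - eps g α i * x) ≠ 0 := by
      intro h
      have h9 : eps g α i * x = 1 := by linear_combination -h
      have := hz i
      rw [h9, norm_one] at this
      exact lt_irrefl _ this
    rw [Complex.exp_log h8, mul_inv_cancel₀ h8]
  rw [h7, mul_one]

/-- the average of the local factor -/
noncomputable def EavgA (f A : F[X]) (k : ℕ) (x : ℂ) : ℂ :=
  (∑ c : Fin k → F, ell (famA f A c) x) / (Fintype.card F : ℂ) ^ k

open Classical in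
/-- **The average of the local factor.** -/
theorem EavgA_sub_one (hF : ringChar F ≠ 2) {f : F[X]} (hf : f.Monic) (hodd : Odd f.natDegree)
    (α : Fin n → F) (hα : Function.Injective α) {k : ℕ} (hk : n + k ≤ f.natDegree) (D : ℝ)
    (hD : ((univ.filter fun c : Fin k → F =>
      ¬ (famA f (∏ i, (X - C (α i))) c).Separable).card : ℝ) * Fintype.card F ≤
      D * (Fintype.card F : ℝ) ^ k)
    {x : ℂ} {y₀ : ℝ} (hy : sq F * ‖x‖ ≤ y₀) (hy0 : 0 < y₀) (h1 : y₀ < 1) :
    ‖EavgA f (∏ i, (X - C (α i))) k x * Rf (eps f α) x - 1‖ ≤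
      D / Fintype.card F *
        ((Sc (5 * (f.natDegree + 2 * n)) 1 y₀ + Cr n y₀) * (sq F * ‖x‖)) +
      Sc (5 * (f.natDegree + 2 * n)) (k + 1) y₀ * (sq F * ‖x‖) ^ (k + 1) := by
  set A : F[X] := ∏ i, (X - C (α i)) with hA
  set K := 5 * (f.natDegree + 2 * n) with hK
  set q : ℝ := (Fintype.card F : ℝ) with hq
  have hq0 : 0 < q := by
    rw [hq]
    exact_mod_cast Fintype.card_pos
  have hs := sq_pos (F := F)
  have hs1 := one_le_sq (F := F)
  have hlt := lt_of_le_of_lt hy h1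
  have hx0 : ‖x‖ ≤ y₀ := le_trans (by nlinarith [norm_nonneg x]) hy
  have hAdeg : A.natDegree = n := natDegree_prod' α
  have hAm : A.Monic := monic_prod α
  have hfam : ∀ c : Fin k → F, (famA f A c).Monic ∧ Odd (famA f A c).natDegree ∧
      (famA f A c).natDegree = f.natDegree := by
    intro c
    obtain ⟨h2, h3⟩ := famA_monic hf hAm (by rw [hAdeg]; exact hk) c
    exact ⟨h2, by rwa [h3], h3⟩
  have hfam' : ∀ c : Fin k → F, (famA f A c * A ^ 2).Monic ∧ Odd (famA f A c * A ^ 2).natDegree ∧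
      5 * (famA f A c * A ^ 2).natDegree = K := by
    intro c
    obtain ⟨h2, h3, h4⟩ := hfam c
    obtain ⟨h5, h6, h7⟩ := gA_facts h2 h3 α
    exact ⟨h5, h7, by rw [hA, h6, h4]⟩
  have heps : ∀ c : Fin k → F, eps (famA f A c) α = eps f α := by
    intro c
    funext i
    unfold eps
    rw [famA_eval]
    rw [hA, eval_prod]
    exact prod_eq_zero (mem_univ i) (by simp)
  set R := Rf (eps f α) x with hR
  set v : (Fin k → F) → ℂ := fun c => ∑' m : ℕ, (Bc (famA f A c * A ^ 2) m : ℂ) * x ^ m with hv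
  have hsplit1 : ∀ c : Fin k → F, (∑' m : ℕ, (Bc (famA f A c) m : ℂ) * x ^ m) * R = v c := by
    intro c
    have h2 := local_split hF (hfam c).1 (hfam c).2.1 α hα hlt
    rw [heps c] at h2
    exact h2
  -- the complete average
  have hsumv : ∑ c, (v c - 1) = ∑ c : Fin k → F,
      ∑' m : ℕ, (Bc (famA f A c * A ^ 2) (m + (k + 1)) : ℂ) * x ^ (m + (k + 1)) := by
    have h2 : ∀ c, v c - 1 =
        (∑ m ∈ range k, (Bc (famA f A c * A ^ 2) (m + 1) : ℂ) * x ^ (m + 1)) +
        ∑' m : ℕ, (Bc (famA f A c * A ^ 2) (m + (k + 1)) : ℂ) * x ^ (m + (k + 1)) := by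
      intro c
      have h3 := (summable_local hF (hfam' c).1 (hfam' c).2.1 hlt).of_norm
      rw [hv]
      simp only
      rw [← h3.sum_add_tsum_nat_add (k + 1), sum_range_succ', Bc_zero]
      simp only [Int.cast_one, pow_zero, mul_one]
      ring
    rw [sum_congr rfl fun c _ => h2 c, sum_add_distrib, sum_comm]
    have h4 : ∑ m ∈ range k, ∑ c : Fin k → F,
        (Bc (famA f A c * A ^ 2) (m + 1) : ℂ) * x ^ (m + 1) = 0 := by
      apply sum_eq_zero
      intro m hm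
      rw [mem_range] at hm
      rw [← sum_mul]
      have := sum_BcA hF f A (k := k) (n := m + 1) (by omega) (by omega)
      have h5 : ∑ c : Fin k → F, (Bc (famA f A c * A ^ 2) (m + 1) : ℂ) = 0 := by
        exact_mod_cast this
      rw [h5, zero_mul]
    rw [h4, zero_add]
  have hb1 : ‖∑ c, (v c - 1)‖ ≤ q ^ k * (Sc K (k + 1) y₀ * (sq F * ‖x‖) ^ (k + 1)) := by
    rw [hsumv]
    refine (norm_sum_le _ _).trans ?_
    refine (sum_le_card_nsmul _ _ (Sc K (k + 1) y₀ * (sq F * ‖x‖) ^ (k + 1))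
      fun c _ => ?_).trans_eq ?_
    · have := local_tail hF (hfam' c).1 (hfam' c).2.1 (k + 1) hy hy0 h1
      rwa [(hfam' c).2.2] at this
    · rw [card_univ, Fintype.card_fun, Fintype.card_fin, nsmul_eq_mul]
      push_cast
      rfl
  -- the members which are not separable
  set B := univ.filter (fun c : Fin k → F => ¬ (famA f A c).Separable) with hB
  have hsplit : ∑ c : Fin k → F, (ell (famA f A c) x * R - 1) = ∑ c, (v c - 1) -
      ∑ c ∈ B, ((v c - 1) - (R - 1)) := by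
    rw [eq_sub_iff_add_eq, hB, sum_filter, ← sum_add_distrib]
    refine sum_congr rfl fun c _ => ?_
    unfold ell
    by_cases h2 : (famA f A c).Separable
    · rw [if_pos h2, if_neg (not_not.2 h2), hsplit1 c, add_zero]
    · rw [if_neg h2, if_pos h2, one_mul]
      ring
  have hR1 : ‖R - 1‖ ≤ Cr n y₀ * (sq F * ‖x‖) := by
    refine (Rf_sub_one _ (eps_norm f α) hx0 h1).trans ?_
    have := Cr_nonneg n h1
    gcongr
    nlinarith [norm_nonneg x]
  have hb2 : ‖∑ c ∈ B, ((v c - 1) - (R - 1))‖ ≤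
      (B.card : ℝ) * ((Sc K 1 y₀ + Cr n y₀) * (sq F * ‖x‖)) := by
    refine (norm_sum_le _ _).trans ?_
    refine (sum_le_card_nsmul _ _ _ fun c _ => ?_).trans_eq (nsmul_eq_mul _ _)
    have h2 := local_sub_one hF (hfam' c).1 (hfam' c).2.1 hy hy0 h1
    rw [(hfam' c).2.2] at h2
    refine (norm_sub_le _ _).trans ?_
    rw [add_mul]
    exact add_le_add h2 hR1
  have hE : EavgA f A k x * R - 1 =
      (∑ c : Fin k → F, (ell (famA f A c) x * R - 1)) / (q : ℂ) ^ k := by
    unfold EavgA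
    rw [sum_sub_distrib, sum_const, card_univ, Fintype.card_fun, Fintype.card_fin, nsmul_one,
      sub_div, ← sum_mul]
    have h3 : (q : ℂ) = (Fintype.card F : ℂ) := by rw [hq]; push_cast; rfl
    rw [h3]
    have h4 : (((Fintype.card F ^ k : ℕ) : ℂ)) / (Fintype.card F : ℂ) ^ k = 1 := by
      push_cast
      exact div_self (pow_ne_zero _ (by exact_mod_cast Fintype.card_ne_zero))
    rw [h4]
    ring
  rw [hE, norm_div, norm_pow, Complex.norm_real, Real.norm_of_nonneg hq0.le,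
    div_le_iff₀ (pow_pos hq0 k), hsplit]
  refine (norm_sub_le _ _).trans ((add_le_add hb1 hb2).trans ?_)
  have h5 : (B.card : ℝ) ≤ D / q * q ^ k := by
    rw [div_mul_eq_mul_div, le_div_iff₀ hq0]
    exact hD
  have h6 : 0 ≤ (Sc K 1 y₀ + Cr n y₀) * (sq F * ‖x‖) := by
    have := Sc_nonneg K 1 hy0
    have := Cr_nonneg n h1
    positivity
  have h7 := mul_le_mul_of_nonneg_right h5 h6
  linarith

end loc

end Pool.Agent.P8H9.PV
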