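import Pool.Agent.P8H9.AV.Tail

/-! Infinite products of holomorphic functions over the primes: holomorphy, positivity. -/

set_option autoImplicit false

namespace Pool.Agent.P8H9.PV

open Finset Filter Topology Pool.Agent.P8H9.AV

variable {ι : Type*}

theorem diff_of (E : ι → ℂ → ℂ) (σ₀ : ℝ) (u : ℝ → ι → ℝ)
    (hu : ∀ σ, σ₀ < σ → Summable (u σ))
    (hb : ∀ σ, σ₀ < σ → ∀ s : ℂ, σ ≤ s.re → ∀ p, ‖E p s - 1‖ ≤ u σ p)
    (hd : ∀ (p : ι) (s : ℂ), σ₀ < s.re → DifferentiableAt ℂ (E p) s) :
    DifferentiableOn ℂ (fun s => ∏' p, E p s) {s : ℂ | σ₀ < s.re} := by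
  classical
  intro s hs
  rw [Set.mem_ofPred_eq] at hs
  obtain ⟨σ, h1, h2⟩ := exists_between hs
  set V : Set ℂ := {s : ℂ | σ < s.re} with hV
  have hVo : IsOpen V := isOpen_lt continuous_const Complex.continuous_re
  have hd' : ∀ p, DifferentiableOn ℂ (fun s => E p s - 1) V := fun p s hs =>
    ((hd p s (by
      have : σ < s.re := hs
      linarith)).sub_const 1).differentiableWithinAt
  have h3 := Summable.hasProdLocallyUniformlyOn_one_add (f := fun p s => E p s - 1) hVo
    (hu σ h1)
    (Filter.Eventually.of_forall fun p s hs => by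
      have hs' : σ < s.re := hs
      exact hb σ h1 s hs'.le p)
    (fun p => (hd' p).continuousOn)
  have h4 : DifferentiableOn ℂ (fun s => ∏' p, (1 + (E p s - 1))) V := by
    refine TendstoLocallyUniformlyOn.differentiableOn h3 ?_ hVo
    refine Filter.Eventually.of_forall fun S => ?_
    have : (fun b => ∏ i ∈ S, (1 + (E i b - 1))) = fun b => ∏ i ∈ S, E i b := by
      funext b
      exact prod_congr rfl fun i _ => by ring
    rw [this]
    refine DifferentiableOn.fun_finsetProd fun p _ => ?_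
    intro z hz
    have hz' : σ < z.re := hz
    exact (hd p z (by linarith)).differentiableWithinAt
  have h5 : (fun s => ∏' p, E p s) = fun s => ∏' p, (1 + (E p s - 1)) := by
    funext s
    exact tprod_congr fun p => by ring
  rw [h5]
  exact (h4.differentiableAt (hVo.mem_nhds h2)).differentiableWithinAt

theorem pos_of (E : ι → ℂ) (u : ι → ℝ) (hu : Summable u) (hb : ∀ p, ‖E p - 1‖ ≤ u p)
    (hp : ∀ p, ∃ r : ℝ, 0 < r ∧ E p = r) : ∃ r : ℝ, 0 < r ∧ ∏' p, E p = r := by
  classical
  choose r hr1 hr2 using hp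
  have h1 := (multipliable_of _ u hu hb).hasProd
  have hcl : IsClosed {z : ℂ | z.im = 0 ∧ 0 ≤ z.re} :=
    (isClosed_eq Complex.continuous_im continuous_const).inter
      (isClosed_le continuous_const Complex.continuous_re)
  have h2 : ∏' p, E p ∈ {z : ℂ | z.im = 0 ∧ 0 ≤ z.re} := by
    refine hcl.mem_of_tendsto h1 (Filter.Eventually.of_forall fun S => ?_)
    have h3 : ∏ p ∈ S, E p = ((∏ p ∈ S, r p : ℝ) : ℂ) := by
      rw [prod_congr rfl fun p _ => hr2 p]
      push_cast
      rfl
    rw [h3]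
    exact ⟨Complex.ofReal_im _, by
      rw [Complex.ofReal_re]
      exact prod_nonneg fun p _ => (hr1 p).le⟩
  have h4 : ∏' p, E p ≠ 0 := by
    have h5 := tprod_one_add_ne_zero_of_summable (f := fun p => E p - 1)
      (fun p => by
        rw [add_sub_cancel, hr2 p]
        exact_mod_cast (hr1 p).ne')
      (Summable.of_nonneg_of_le (fun _ => norm_nonneg _) hb hu)
    simpa using h5
  obtain ⟨h5, h6⟩ := h2
  have h7 : ∏' p, E p = ((∏' p, E p).re : ℂ) := Complex.ext (by simp) (by simp [h5])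
  refine ⟨(∏' p, E p).re, lt_of_le_of_ne h6 fun h8 => h4 ?_, h7⟩
  rw [h7, ← h8]
  simp

end Pool.Agent.P8H9.PV
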